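import Pool.Agent.H.MP_ac3185_nt.helper16.Final


/-! All but finitely many twists: the ranks over the fields of a tower which contain one fixed
quadratic extension of `K` are even, if the parities of the ranks of the twists over `K` are the same for
`m` and `m * D 0`. -/

set_option autoImplicit false

open CategoryTheory AlgebraicGeometry NumberField IsDedekindDomain
open scoped MonObj symmDiff

namespace Pool.Agent.H.MP_ac3185_nt.HT

universe u

variable {K : Type u} [Field K] [CharZero K]

omit [CharZero K] in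
theorem chiRank_congr (A : Over (Spec (.of K))) [GrpObj A] [IsAbVar A] {m n : ℕ}
    (h : chi (K := K) m = chi n) : chiRank A m = chiRank A n := by
  have h1 : chiPts A m = chiPts A n := by
    ext x
    show (∀ σ, galHom A σ x = (chi m σ : ℤ) • x) ↔ ∀ σ, galHom A σ x = (chi n σ : ℤ) • x
    rw [h]
  unfold chiRank
  rw [h1]

/-- The character of a square root which lies in `F`. -/
theorem pair_eps (F : IntermediateField K (AlgebraicClosure K)) [Normal K F] (n : ℕ)
    (x : AlgebraicClosure K) (hxF : x ∈ F) (hx : x ^ 2 = (n : AlgebraicClosure K)) :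
    ∃ ε : (F ≃ₐ[K] F) →* ℤˣ, ∀ σ : AlgebraicClosure K ≃ₐ[K] AlgebraicClosure K,
      ε (AlgEquiv.restrictNormalHom F σ) = chi n σ := by
  have hsurj : Function.Surjective (AlgEquiv.restrictNormalHom (F := K) (K₁ := AlgebraicClosure K)
      F) := AlgEquiv.restrictNormalHom_surjective (AlgebraicClosure K)
  have hker : (AlgEquiv.restrictNormalHom (F := K) (K₁ := AlgebraicClosure K)
      F).ker ≤ (chi (K := K) n).ker := by
    intro σ hσ
    rw [MonoidHom.mem_ker] at hσ ⊢
    rw [chi_eq_one_iff _ σ x hx]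
    have h1 := AlgEquiv.restrictNormal_commutes σ F ⟨x, hxF⟩
    have h2 : σ.restrictNormal F = 1 := hσ
    rw [h2] at h1
    exact h1.symm
  refine ⟨MonoidHom.liftOfRightInverse _ _ (Function.rightInverse_surjInv hsurj)
    ⟨chi (K := K) n, hker⟩, fun σ => ?_⟩
  exact MonoidHom.liftOfRightInverse_comp_apply _ _ _ _ _

/-- PROOF. The rank is congruent modulo `2` to the sum over the characters `ε` of `Gal(F/K)` with values
`1`, `-1` of the ranks of the twists by `m (τ ε)`; the terms of `ε` and `ε * ε₀`, where `ε₀` is the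
character of `√(D 0)`, have the same parity. -/
theorem rank_pair (A B : Over (Spec (.of K))) [GrpObj A] [IsAbVar A] [GrpObj B] [IsAbVar B]
    (e : ℕ) (hAB : IsQuadTwist A B e) (D : ℕ → ℕ) (hD : ∀ j, D j ≠ 0)
    (F : IntermediateField K (AlgebraicClosure K)) (hF : AboveTower (sqrtTower K D 0) F)
    (x : AlgebraicClosure K) (hxF : x ∈ F) (hx : x ^ 2 = (D 0 : AlgebraicClosure K))
    (hK : ∀ y : K, y ^ 2 ≠ (D 0 : K)) (m : Finset ℕ → ℕ)
    (hm : ∀ t : Finset ℕ, chi (K := K) (m t) = chi e * chi (∏ j ∈ t, D j))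
    (hP : ∀ t : Finset ℕ, chiRank A (m t) ≡ chiRank A (m (t ∆ {0})) [MOD 2]) :
    Even (Module.rank ℤ (Pts B F)) := by
  classical
  obtain ⟨hfd0, hgal, hnil, -, hq⟩ := hF
  rcases lt_or_ge (Module.rank ℤ (Pts B F)) Cardinal.aleph0 with h1 | h1
  · obtain ⟨r, hr⟩ := Cardinal.lt_aleph0.1 h1
    rw [hr]
    apply gt_even_nat
    have hfinG : Finite (F ≃ₐ[K] F) := inferInstance
    obtain ⟨M, _, _, ρ, hM, hε⟩ := exists_twistRep A B _ hAB F
    have hMr : Module.rank ℚ M = (r : Cardinal) := hM.trans hr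
    have hfd : FiniteDimensional ℚ M := Module.rank_lt_aleph0_iff.1 (by
      rw [hMr]; exact Cardinal.natCast_lt_aleph0)
    have hMf : Module.finrank ℚ M = r := Module.finrank_eq_of_rank_eq hMr
    obtain ⟨N, hN, hodd, h2⟩ := hnil
    have hmod := finrank_two_nilpotent N hodd h2 ρ
    choose τ hτ1 hτ2 using char_tower D hD 0 F hq
    obtain ⟨ε₀, hε₀⟩ := pair_eps F (D 0) x hxF hx
    have hne : ε₀ ≠ 1 := by
      intro h
      have h3 : chi (K := K) (D 0) = 1 := by
        apply MonoidHom.ext
        intro σ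
        rw [← hε₀ σ, h]
        rfl
      have h4 : rt K (D 0) ∈ (⊥ : IntermediateField K (AlgebraicClosure K)) := by
        refine rank_mem_of_fixed ⊥ _ fun σ _ => ?_
        exact (chi_eq_one_iff (D 0) σ _ (rt_sq K (D 0))).1 (by rw [h3, MonoidHom.one_apply])
      obtain ⟨y, hy⟩ := IntermediateField.mem_bot.1 h4
      refine hK y ((algebraMap K (AlgebraicClosure K)).injective ?_)
      rw [map_pow, hy, rt_sq, map_natCast]
    have hfin : Finite ((F ≃ₐ[K] F) →* ℤˣ) := DFunLike.finite _
    have _ : Fintype ((F ≃ₐ[K] F) →* ℤˣ) := Fintype.ofFinite _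
    rw [hMf, finsum_eq_sum_of_fintype] at hmod
    have hg : ∀ ε : (F ≃ₐ[K] F) →* ℤˣ, Module.finrank ℚ (epsPart ρ ε) = chiRank A (m (τ ε)) := by
      intro ε
      have h6 := hε ε (m (τ ε)) (fun σ => by
        rw [hm, hτ2, MonoidHom.mul_apply, mul_comm])
      unfold chiRank Module.finrank
      rw [h6]
    have hpair : ∀ ε : (F ≃ₐ[K] F) →* ℤˣ, Module.finrank ℚ (epsPart ρ (ε * ε₀)) ≡
        Module.finrank ℚ (epsPart ρ ε) [MOD 2] := by
      intro ε
      rw [hg, hg]
      refine Nat.ModEq.trans ?_ (hP (τ ε)).symm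
      have h7 : chi (K := K) (m (τ (ε * ε₀))) = chi (m (τ ε ∆ {0})) := by
        rw [hm, hm, chi_symmDiff (τ ε) {0} D hD, Finset.prod_singleton]
        congr 1
        apply MonoidHom.ext
        intro σ
        rw [← hτ2, MonoidHom.mul_apply, MonoidHom.mul_apply, hτ2, hε₀]
      rw [chiRank_congr A h7]
    have hsum : ((∑ ε : (F ≃ₐ[K] F) →* ℤˣ, Module.finrank ℚ (epsPart ρ ε) : ℕ) : ZMod 2) = 0 := by
      rw [Nat.cast_sum]
      refine Finset.sum_involution (fun ε _ => ε * ε₀) ?_ ?_ ?_ ?_
      · intro ε _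
        have h8 := (ZMod.natCast_eq_natCast_iff _ _ 2).2 (hpair ε)
        rw [h8]
        exact CharTwo.add_self_eq_zero _
      · intro ε _ _ h
        exact hne (mul_eq_left.1 h)
      · intro ε _
        exact Finset.mem_univ _
      · intro ε _
        rw [mul_assoc]
        have h9 : ε₀ * ε₀ = 1 := by
          apply MonoidHom.ext
          intro g
          rw [MonoidHom.mul_apply, Int.units_mul_self, MonoidHom.one_apply]
        rw [h9, mul_one]
    rw [ZMod.natCast_eq_zero_iff] at hsum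
    rw [Nat.even_iff]
    have h10 : r % 2 = _ := hmod
    rw [h10]
    exact Nat.mod_eq_zero_of_dvd hsum
  · have h2 := gt_even_infinite _ h1 0
    rwa [Nat.cast_zero, add_zero] at h2

end Pool.Agent.H.MP_ac3185_nt.HT
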