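import Pool.Agent.H.MP_ac3185_nt.U.Hind
import Pool.Agent.H.MP_ac3185_nt.helper16.Index


/-! All but finitely many twists: the universal sequence and the classes of the sets `S`. -/

set_option autoImplicit false

open scoped symmDiff

namespace Pool.Agent.H.MP_ac3185_nt.HT

open Finset

/-- The universal sequence for the parities `e i (num S * _)`, for all `S` and `i`. -/
theorem exists_seq {ι : Type} [Finite ι] {N : ℕ} (hN : N ≠ 0) (e : ι → ℕ → ℕ) :
    ∃ w : ℕ → ℕ, (∀ j, 1 < w j) ∧ (∀ j, Squarefree (w j)) ∧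
      (∀ j k, j ≠ k → Nat.Coprime (w j) (w k)) ∧ (∀ j, w j ≡ 1 [MOD 8 * N]) ∧
      ∃ (α : Finset ℕ → ι → Prop) (k : Finset ℕ → ι → ℕ), ∀ S i, ∀ T : Finset ℕ, T.Nonempty →
        (∀ j ∈ T, k S i ≤ j) → (Even (e i (num S * ∏ j ∈ T, w j)) ↔ α S i) := by
  classical
  have _ : Encodable ι := Encodable.ofCountable ι
  obtain ⟨c, hc⟩ : ∃ c : ℕ → ℕ → Prop, ∀ k x, c k x ↔
      ∀ p : Finset ℕ × ι, Encodable.encode p = k → Even (e p.2 (num p.1 * x)) :=
    ⟨fun k x => ∀ p : Finset ℕ × ι, Encodable.encode p = k → Even (e p.2 (num p.1 * x)),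
      fun _ _ => Iff.rfl⟩
  have hc' : ∀ (S : Finset ℕ) (i : ι) (x : ℕ),
      c (Encodable.encode (S, i)) x ↔ Even (e i (num S * x)) := by
    intro S i x
    rw [hc]
    constructor
    · intro h
      exact h (S, i) rfl
    · intro h p hp
      rw [Encodable.encode_injective hp]
      exact h
  obtain ⟨w, h1, h2, h3, h4, h5, -, h7⟩ := U.exists_universal c (fun _ => 8 * N)
    (fun _ => by omega)
  refine ⟨w, h1, h2, h3, ?_, ?_⟩
  · intro j
    have h8 : ∀ s : Finset ℕ, (∀ p ∈ s, p ≡ 1 [MOD 8 * N]) → ∏ p ∈ s, p ≡ 1 [MOD 8 * N] := by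
      intro s
      induction s using Finset.induction_on with
      | empty =>
        intro _
        rw [prod_empty]
      | insert a s ha ih =>
        intro h
        rw [prod_insert ha]
        have := (h a (mem_insert_self a s)).mul (ih fun p hp => h p (mem_insert_of_mem hp))
        rwa [one_mul] at this
    have h9 := h8 (w j).primeFactors fun p hp =>
      h5 0 j (Nat.zero_le j) p (Nat.prime_of_mem_primeFactors hp) (Nat.dvd_of_mem_primeFactors hp)
    rwa [Nat.prod_primeFactors_of_squarefree (h2 j)] at h9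
  · refine ⟨fun S i => c (Encodable.encode (S, i)) (∏ j ∈ {Encodable.encode (S, i)}, w j),
      fun S i => Encodable.encode (S, i), fun S i T hT hk => ?_⟩
    rw [← hc']
    refine h7 _ T {Encodable.encode (S, i)} hT (singleton_nonempty _) hk fun j hj => ?_
    rw [mem_singleton] at hj
    exact hj.ge

/-- The class of a set of primes; sets of one class differ by a nice set (`nice_of_eq`). -/
noncomputable def cls {ι : Type} (N : ℕ) (e : ι → ℕ → ℕ) (α : Finset ℕ → ι → Prop)
    (S : Finset ℕ) : (Finset ℕ × ZMod (8 * N)) × (ι → Prop × Prop) :=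
  ((S ∩ (2 * N).primeFactors, ((num (S \ (2 * N).primeFactors) : ℕ) : ZMod (8 * N))),
    fun i => (Even (e i (num S)), α S i))

/-- PROOF. There are finitely many classes, and the exceptional sets of one class differ by elements of
`X`. -/
theorem cls_finite {ι : Type} [Finite ι] {N : ℕ} (hN : N ≠ 0) (e : ι → ℕ → ℕ)
    (α : Finset ℕ → ι → Prop) {X : Set (Finset ℕ)} (hX : X.Finite) :
    {S : Finset ℕ | (∀ q ∈ S, q.Prime) ∧ ∀ S' : Finset ℕ, (∀ q ∈ S', q.Prime) →
      cls N e α S' = cls N e α S → S ∆ S' ∈ X}.Finite := by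
  classical
  have h8 : 8 * N ≠ 0 := by omega
  have : NeZero (8 * N) := ⟨h8⟩
  refine Set.Finite.of_finite_fibers (cls N e α) ?_ ?_
  · have hfin : ((((2 * N).primeFactors.powerset : Finset (Finset ℕ)) : Set (Finset ℕ)) ×ˢ
        (Set.univ : Set (ZMod (8 * N)))) ×ˢ (Set.univ : Set (ι → Prop × Prop)) |>.Finite :=
      ((Finset.finite_toSet _).prod Set.finite_univ).prod Set.finite_univ
    refine hfin.subset ?_
    rintro _ ⟨S, -, rfl⟩
    refine ⟨⟨?_, Set.mem_univ _⟩, Set.mem_univ _⟩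
    rw [mem_coe, mem_powerset]
    exact inter_subset_right
  · rintro _ ⟨S₀, hS₀, rfl⟩
    refine (hX.image fun R => S₀ ∆ R).subset ?_
    rintro S ⟨hS, hcl⟩
    refine ⟨S₀ ∆ S, hS₀.2 S hS.1 hcl, ?_⟩
    exact symmDiff_symmDiff_cancel_left S₀ S

/-- Far out in a sequence of pairwise coprime numbers no prime of a given finite set occurs. -/
theorem exists_far (w : ℕ → ℕ) (hw : ∀ j k, j ≠ k → Nat.Coprime (w j) (w k)) (Q : Finset ℕ) :
    ∃ n, ∀ j, n ≤ j → ∀ p ∈ Q, p.Prime → ¬ p ∣ w j := by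
  classical
  induction Q using Finset.induction_on with
  | empty => exact ⟨0, fun j _ p hp => absurd hp (notMem_empty p)⟩
  | insert q Q hq ih =>
    obtain ⟨n, hn⟩ := ih
    by_cases h : ∃ j₀, q ∣ w j₀
    · obtain ⟨j₀, hj₀⟩ := h
      refine ⟨max n (j₀ + 1), fun j hj p hp hpp hd => ?_⟩
      rcases mem_insert.1 hp with h1 | h1
      · rw [h1] at hpp hd
        have h2 : j₀ ≠ j := by
          have := (le_max_right n (j₀ + 1)).trans hj
          omega
        have h3 := Nat.dvd_gcd hj₀ hd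
        rw [hw j₀ j h2] at h3
        exact hpp.one_lt.ne' (Nat.dvd_one.1 h3)
      · exact hn j ((le_max_left _ _).trans hj) p h1 hpp hd
    · refine ⟨n, fun j hj p hp hpp hd => ?_⟩
      rcases mem_insert.1 hp with h1 | h1
      · rw [h1] at hd
        exact h ⟨j, hd⟩
      · exact hn j hj p h1 hpp hd

end Pool.Agent.H.MP_ac3185_nt.HT
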