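import Pool.Agent.H.MP_ac3185_nt.helper16.DegA

/-! All but finitely many twists: the sets of primes whose product is a square in `K`. -/

set_option autoImplicit false

open scoped symmDiff

namespace Pool.Agent.H.MP_ac3185_nt.HT

universe u

/-- The finite sets of primes whose product is a square in `K`. -/
def sqAll (K : Type u) [Field K] : Set (Finset ℕ) :=
  {S | (∀ q ∈ S, q.Prime) ∧ ∃ x : K, x ^ 2 = (num S : K)}

theorem sqAll_finite (K : Type u) [Field K] [NumberField K] : (sqAll K).Finite := by
  by_contra h
  obtain ⟨Y, hY, hYc⟩ := Set.Infinite.exists_subset_card_eq h (Module.finrank ℚ K + 1)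
  have h1 := card_squares (K := K) Y (fun S hS => (hY hS).1) fun S hS => (hY hS).2
  omega

end Pool.Agent.H.MP_ac3185_nt.HT
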