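import Pool.Agent.H.MP_ac3185_nt.E42.Pair
import Pool.Agent.H.MP_ac3185_nt.E42.Seq
import Pool.Agent.H.MP_ac3185_nt.E42.Sq

/-! All but finitely many twists: the theorem. -/

set_option autoImplicit false

open CategoryTheory AlgebraicGeometry NumberField IsDedekindDomain
open scoped MonObj symmDiff

namespace Pool.Agent.H.MP_ac3185_nt.HT

universe u

/-- The field generated over `K` by the square roots of the natural numbers `D i`. -/
noncomputable def multiQuad (K : Type u) [Field K] {m : ℕ} (D : Fin m → ℕ) :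
    IntermediateField K (AlgebraicClosure K) :=
  IntermediateField.adjoin K {x | ∃ i, x ^ 2 = (D i : AlgebraicClosure K)}

/-- The global root number over `F` of the quadratic twist of `A` by `d` is `1`, and its rank over `F`
is even. (The rank is the cardinal number `Module.rank`; a cardinal `c` is even if `c = b + b` for some
`b`, so infinite cardinals, which do not occur by the theorem of Mordell and Weil, are even.) -/
def BothEven {K : Type u} [Field K] [NumberField K] (A : Over (Spec (.of K))) [GrpObj A]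
    [IsAbVar A] (d : ℕ) (F : IntermediateField K (AlgebraicClosure K)) : Prop :=
  ∀ (B : Over (Spec (.of K))) [GrpObj B] [IsAbVar B], IsQuadTwist A B d →
    (∀ W : LocalSigns K, IsRootNumberFamily B W → ∀ g : ℕ, signOver W g F = 1) ∧
      Even (Module.rank ℤ (Pts B F))

theorem tower_sqfree : ∀ S : Finset ℕ, (∀ q ∈ S, q.Prime) → Squarefree (num S) := by
  intro S
  induction S using Finset.induction_on with
  | empty =>
    intro _
    unfold num
    rw [Finset.prod_empty]
    exact squarefree_one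
  | insert a S ha ih =>
    intro h
    unfold num at ih ⊢
    rw [Finset.prod_insert ha, Nat.squarefree_mul]
    · exact ⟨(h a (Finset.mem_insert_self _ _)).squarefree,
        ih fun q hq => h q (Finset.mem_insert_of_mem hq)⟩
    · refine Nat.Coprime.prod_right fun q hq => ?_
      refine (Nat.coprime_primes (h a (Finset.mem_insert_self _ _))
        (h q (Finset.mem_insert_of_mem hq))).2 fun e => ha (e ▸ hq)

theorem tower_primes (S : Finset ℕ) (hS : ∀ q ∈ S, q.Prime) : (num S).primeFactors = S :=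
  Nat.primeFactors_prod hS

/-- The sequence `u, w n, w (n + 1), ...`. -/
def shiftSeq (u : ℕ) (w : ℕ → ℕ) (n : ℕ) (j : ℕ) : ℕ := if j = 0 then u else w (n + (j - 1))

/-- The indices of `w` which occur in the product over `t` of `shiftSeq u w n`. -/
def shiftIdx (n : ℕ) (t : Finset ℕ) : Finset ℕ := (t.erase 0).image fun j => n + (j - 1)

theorem shiftIdx_le (n : ℕ) (t : Finset ℕ) : ∀ j ∈ shiftIdx n t, n ≤ j := by
  intro j hj
  unfold shiftIdx at hj
  obtain ⟨i, -, rfl⟩ := Finset.mem_image.1 hj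
  omega

theorem shiftIdx_symmDiff (n : ℕ) (t : Finset ℕ) : shiftIdx n (t ∆ {0}) = shiftIdx n t := by
  unfold shiftIdx
  congr 1
  ext j
  rw [Finset.mem_erase, Finset.mem_erase, Finset.mem_symmDiff, Finset.mem_singleton]
  tauto

theorem shift_prod (u : ℕ) (w : ℕ → ℕ) (n : ℕ) (t : Finset ℕ) :
    ∏ j ∈ t, shiftSeq u w n j = (if 0 ∈ t then u else 1) * ∏ j ∈ shiftIdx n t, w j := by
  classical
  have h1 : ∏ j ∈ t.erase 0, shiftSeq u w n j = ∏ j ∈ shiftIdx n t, w j := by
    unfold shiftIdx
    rw [Finset.prod_image]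
    · refine Finset.prod_congr rfl fun j hj => ?_
      unfold shiftSeq
      rw [if_neg (Finset.ne_of_mem_erase hj)]
    · intro i hi j hj h
      rw [Finset.mem_coe, Finset.mem_erase] at hi hj
      have h2 : n + (i - 1) = n + (j - 1) := h
      omega
  split_ifs with h
  · rw [← Finset.mul_prod_erase t _ h, h1]
    unfold shiftSeq
    rw [if_pos rfl]
  · rw [one_mul, ← h1, Finset.erase_eq_of_notMem h]

private theorem Tower_notMem {m : ℕ} (D : Fin m → Finset ℕ) (p : ℕ) (J : Finset (Fin m))
    (h : ∀ i ∈ J, p ∉ D i) : p ∉ cmb D J := by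
  induction J using Finset.induction_on with
  | empty =>
    rw [cmb_empty]
    exact Finset.notMem_empty p
  | insert j J hj ih =>
    rw [cmb_insert D j J hj, Finset.mem_symmDiff]
    have h1 := h j (Finset.mem_insert_self j J)
    have h2 := ih fun i hi => h i (Finset.mem_insert_of_mem hi)
    tauto

/-- A prime which occurs in exactly one of the sets occurs in the combination. -/
theorem mem_cmb {m : ℕ} (D : Fin m → Finset ℕ) (p : ℕ) (J : Finset (Fin m)) (j : Fin m)
    (hj : j ∈ J) (hp : p ∈ D j) (h : ∀ i, i ≠ j → p ∉ D i) : p ∈ cmb D J := by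
  rw [← Finset.insert_erase hj, cmb_insert D j _ (Finset.notMem_erase j J), Finset.mem_symmDiff]
  left
  refine ⟨hp, Tower_notMem D p _ fun i hi => h i (Finset.ne_of_mem_erase hi)⟩

/-- PROOF. `N` a common multiple of `M` and numbers with `GoodOutside (A i)`, `w` the sequence of
`exists_seq`. For `S` outside the finite set of `cls_finite` there is `S'` of the same class such that
`U = S ∆ S'` is not in `sqAll K`; `D` is the sequence `num U, w n, w (n + 1), ...` with `n` large. For
all products `x` of the `w j`, `j ≥ n` (also for `x = 1`), the ranks of the twists by `num S * x` and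
`num S' * x` have the same parity: `rank_pair`. Root numbers: `root_half`. -/
theorem tower_twists {K : Type u} [Field K] [NumberField K] {I : Type} [Finite I]
    (A : I → Over (Spec (.of K))) [∀ i, GrpObj (A i)] [∀ i, IsAbVar (A i)] (M : ℕ) (hM : 0 < M) :
    ∃ E : Finset ℕ, ∀ d : ℕ, Squarefree d → d ∉ E → ∃ D : ℕ → ℕ,
      (∀ j, Squarefree (D j) ∧ ∃ b : ℕ, b ^ 2 * D j ≡ 1 [MOD M]) ∧
      (∀ n : ℕ, Module.finrank K (multiQuad K fun j : Fin n => D j) = 2 ^ n) ∧
      ∀ F : IntermediateField K (AlgebraicClosure K), FiniteDimensional K F →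
        (∃ x ∈ F, x ^ 2 = (D 0 : AlgebraicClosure K)) →
        (F ≤ sqrtTower K D 0 ∨ AboveTower (sqrtTower K D 0) F) → ∀ i, BothEven (A i) d F := by
  classical
  have _ : Fintype I := Fintype.ofFinite I
  choose N₀ hN₀ hgood₀ using fun i => gc_good (A i)
  obtain ⟨N, hNdef⟩ : ∃ N, N = (∏ i, N₀ i) * M := ⟨_, rfl⟩
  have hN : N ≠ 0 := by
    rw [hNdef]
    exact Nat.mul_ne_zero (Finset.prod_ne_zero_iff.2 fun i _ => hN₀ i) hM.ne'
  have hgood : ∀ i, GoodOutside (A i) N := by
    intro i v hv
    refine hgood₀ i v fun h => hv ?_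
    obtain ⟨k, hk⟩ : N₀ i ∣ N := by
      rw [hNdef]
      exact (Finset.dvd_prod_of_mem N₀ (Finset.mem_univ i)).mul_right M
    rw [hk, Nat.cast_mul]
    exact Ideal.mul_mem_right _ _ h
  have hMN : M ∣ 8 * N := by
    rw [hNdef]
    exact Dvd.intro_left (8 * ∏ i, N₀ i) (by ring)
  obtain ⟨w, hw1, hw2, hw3, hw4, α, k, hα⟩ :=
    exists_seq hN (fun (i : I) m => chiRank (A i) m)
  have hfin := cls_finite hN (fun (i : I) m => chiRank (A i) m) α (sqAll_finite K)
  refine ⟨hfin.toFinset.image num, ?_⟩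
  intro d hd hdE
  obtain ⟨S, hSdef⟩ : ∃ S, S = d.primeFactors := ⟨_, rfl⟩
  have hnum : num S = d := by
    rw [hSdef]
    exact Nat.prod_primeFactors_of_squarefree hd
  have hSp : ∀ q ∈ S, q.Prime := by
    intro q hq
    rw [hSdef] at hq
    exact Nat.prime_of_mem_primeFactors hq
  -- the partner
  obtain ⟨S', hS'p, hcl, hU⟩ : ∃ S' : Finset ℕ, (∀ q ∈ S', q.Prime) ∧
      cls N (fun i m => chiRank (A i) m) α S' = cls N (fun i m => chiRank (A i) m) α S ∧
      S ∆ S' ∉ sqAll K := by
    by_contra hcon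
    push Not at hcon
    apply hdE
    rw [Finset.mem_image]
    refine ⟨S, ?_, hnum⟩
    rw [Set.Finite.mem_toFinset]
    exact ⟨hSp, hcon⟩
  obtain ⟨U, hUdef⟩ : ∃ U, U = S ∆ S' := ⟨_, rfl⟩
  rw [← hUdef] at hU
  unfold cls at hcl
  simp only [Prod.mk.injEq] at hcl
  obtain ⟨⟨hc1, hc2⟩, hc3⟩ := hcl
  have hUn : Nice N U := by
    rw [hUdef]
    exact nice_of_eq hN hSp hS'p hc1.symm hc2.symm
  have hUp : ∀ q ∈ U, q.Prime := by
    intro q hq
    rw [hUdef] at hq
    rcases Finset.mem_symmDiff.1 hq with h2 | h2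
    · exact hSp q h2.1
    · exact hS'p q h2.1
  have h0 : ∀ R : Finset ℕ, (∀ q ∈ R, q.Prime) → 0 ∉ R := fun R hR h =>
    Nat.not_prime_zero (hR 0 h)
  have hnum0 : ∀ R : Finset ℕ, (∀ q ∈ R, q.Prime) → num R ≠ 0 := fun R hR =>
    (Finset.prod_pos fun q hq => (hR q hq).pos).ne'
  have hw0 : ∀ j, w j ≠ 0 := fun j => by
    have := hw1 j
    omega
  have hwT0 : ∀ T : Finset ℕ, ∏ j ∈ T, w j ≠ 0 := fun T =>
    Finset.prod_ne_zero_iff.2 fun j _ => hw0 j
  have hUK : ∀ y : K, y ^ 2 ≠ (num U : K) := fun y hy => hU ⟨hUp, y, hy⟩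
  -- the index
  obtain ⟨n₁, hn₁⟩ := exists_far w hw3 ((sqAll_finite K).toFinset.biUnion id ∪ U)
  obtain ⟨n, hn, hnS, hnS'⟩ : ∃ n, n₁ ≤ n ∧ (∀ i, k S i ≤ n) ∧ ∀ i, k S' i ≤ n := by
    refine ⟨n₁ + ∑ i, (k S i + k S' i), by omega, fun i => ?_, fun i => ?_⟩
    · have h1 := Finset.single_le_sum (f := fun i => k S i + k S' i) (fun _ _ => Nat.zero_le _)
        (Finset.mem_univ i)
      omega
    · have h1 := Finset.single_le_sum (f := fun i => k S i + k S' i) (fun _ _ => Nat.zero_le _)
        (Finset.mem_univ i)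
      omega
  -- equal parities
  have hpar : ∀ i, ∀ T : Finset ℕ, (∀ j ∈ T, n ≤ j) →
      (Even (chiRank (A i) (num S * ∏ j ∈ T, w j)) ↔
        Even (chiRank (A i) (num S' * ∏ j ∈ T, w j))) := by
    intro i T hT
    have h3 := congrFun hc3 i
    simp only [Prod.mk.injEq, eq_iff_iff] at h3
    rcases T.eq_empty_or_nonempty with h4 | h4
    · rw [h4, Finset.prod_empty, mul_one, mul_one]
      exact h3.1.symm
    · rw [hα S i T h4 fun j hj => (hnS i).trans (hT j hj),
        hα S' i T h4 fun j hj => (hnS' i).trans (hT j hj)]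
      exact h3.2.symm
  obtain ⟨D, hDdef⟩ : ∃ D, D = shiftSeq (num U) w n := ⟨_, rfl⟩
  have hD0 : D 0 = num U := by
    rw [hDdef]
    rfl
  have hDj : ∀ j, j ≠ 0 → D j = w (n + (j - 1)) := by
    intro j hj
    rw [hDdef]
    exact if_neg hj
  have hDne : ∀ j, D j ≠ 0 := by
    intro j
    by_cases hj : j = 0
    · rw [hj, hD0]
      exact hnum0 U hUp
    · rw [hDj j hj]
      exact hw0 _
  have hDsq : ∀ j, Squarefree (D j) := by
    intro j
    by_cases hj : j = 0
    · rw [hj, hD0]
      exact tower_sqfree U hUp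
    · rw [hDj j hj]
      exact hw2 _
  refine ⟨D, fun j => ⟨hDsq j, ?_⟩, fun m => ?_, ?_⟩
  · by_cases hj : j = 0
    · rw [hj, hD0]
      obtain ⟨b, hb⟩ := hUn
      exact ⟨b, hb.of_dvd hMN⟩
    · rw [hDj j hj]
      refine ⟨1, ?_⟩
      rw [one_pow, one_mul]
      exact (hw4 _).of_dvd hMN
  · -- the degree
    obtain ⟨Ds, hDs⟩ : ∃ Ds : Fin m → Finset ℕ, Ds = fun j : Fin m => (D j).primeFactors :=
      ⟨_, rfl⟩
    have hDsp : ∀ i, ∀ q ∈ Ds i, q.Prime := by
      intro i q hq
      rw [hDs] at hq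
      exact Nat.prime_of_mem_primeFactors hq
    have hDsn : ∀ i, num (Ds i) = D i := by
      intro i
      rw [hDs]
      exact Nat.prod_primeFactors_of_squarefree (hDsq i)
    have hfield : (multiQuad K fun j : Fin m => D j) = sqrtField K Ds := by
      unfold multiQuad sqrtField
      simp only [hDsn]
    rw [hfield]
    refine finrank_sqrtField Ds (fun i => h0 _ (hDsp i)) ?_
    intro J hJ x hx
    have hmem : cmb Ds J ∈ sqAll K := by
      refine ⟨?_, x, hx⟩
      refine cmb_induction Ds (fun S => ∀ q ∈ S, q.Prime) (by simp) (fun S S' h h' q hq => ?_)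
        hDsp J
      rcases Finset.mem_symmDiff.1 hq with h2 | h2
      · exact h q h2.1
      · exact h' q h2.1
    by_cases hJ0 : ∃ j ∈ J, (j : ℕ) ≠ 0
    · obtain ⟨j, hjJ, hj0⟩ := hJ0
      obtain ⟨p, hp, hpd⟩ := Nat.exists_prime_and_dvd (hw1 (n + ((j : ℕ) - 1))).ne'
      have hpj : p ∈ Ds j := by
        rw [hDs]
        show p ∈ (D j).primeFactors
        rw [Nat.mem_primeFactors, hDj _ hj0]
        exact ⟨hp, hpd, hw0 _⟩
      have hpi : ∀ i, i ≠ j → p ∉ Ds i := by
        intro i hij hpi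
        rw [hDs] at hpi
        have hpd' := Nat.dvd_of_mem_primeFactors hpi
        by_cases hi0 : (i : ℕ) = 0
        · rw [hi0, hD0] at hpd'
          refine hn₁ (n + ((j : ℕ) - 1)) (by omega) p ?_ hp hpd
          rw [Finset.mem_union]
          right
          rw [← tower_primes U hUp, Nat.mem_primeFactors]
          exact ⟨hp, hpd', hnum0 U hUp⟩
        · rw [hDj _ hi0] at hpd'
          have hne : n + ((j : ℕ) - 1) ≠ n + ((i : ℕ) - 1) := by
            intro h
            apply hij
            apply Fin.ext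
            omega
          have h3 := Nat.dvd_gcd hpd hpd'
          rw [hw3 _ _ hne] at h3
          exact hp.one_lt.ne' (Nat.dvd_one.1 h3)
      have hpc := mem_cmb Ds p J j hjJ hpj hpi
      refine hn₁ (n + ((j : ℕ) - 1)) (by omega) p ?_ hp hpd
      rw [Finset.mem_union]
      left
      rw [Finset.mem_biUnion]
      exact ⟨cmb Ds J, (Set.Finite.mem_toFinset _).2 hmem, hpc⟩
    · push Not at hJ0
      obtain ⟨j, hj⟩ := hJ
      have hJe : J = {j} := by
        rw [Finset.eq_singleton_iff_unique_mem]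
        refine ⟨hj, fun i hi => Fin.ext ?_⟩
        rw [hJ0 i hi, hJ0 j hj]
      have h5 : cmb Ds J = U := by
        rw [hJe]
        unfold cmb
        rw [Finset.sum_singleton]
        show Ds j = U
        rw [hDs]
        show (D j).primeFactors = U
        rw [hJ0 j hj, hD0]
        exact tower_primes U hUp
      rw [h5] at hmem
      exact hU hmem
  · -- the fields
    rintro F hfd ⟨x, hxF, hx⟩ hF i B _ _ hAB
    have hxU : x ^ 2 = (num U : AlgebraicClosure K) := by rw [hx, hD0]
    have hFT : AboveTower (sqrtTower K D 0) F := by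
      rcases hF with hF | hF
      · refine aboveTower_of_le _ (Set.range D) ?_ F hF ?_
        · unfold sqrtTower primeTower
          apply IntermediateField.adjoin.mono
          rintro y ⟨j, -, hy⟩
          exact ⟨D j, ⟨j, rfl⟩, hy⟩
        · intro hb
          rw [hb] at hxF
          obtain ⟨y, hy⟩ := IntermediateField.mem_bot.1 hxF
          refine hUK y ((algebraMap K (AlgebraicClosure K)).injective ?_)
          rw [map_pow, hy, hxU, map_natCast]
      · exact hF
    have hgal : IsGalois K F := hFT.2.1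
    rw [← hnum] at hAB
    refine ⟨fun W hW g => root_half (A i) B hN (hgood i) S U hSp hUp hUn hAB W hW g F x hxF hxU hUK,
      ?_⟩
    refine rank_pair (A i) B (num S) hAB D hDne F hFT x hxF hx (by rw [hD0]; exact hUK)
      (fun t => (if 0 ∈ t then num S' else num S) * ∏ j ∈ shiftIdx n t, w j) ?_ ?_
    · intro t
      rw [hDdef, shift_prod]
      by_cases ht : 0 ∈ t
      · rw [if_pos ht, if_pos ht, chi_mul (hnum0 S' hS'p) (hwT0 _),
          chi_mul (hnum0 U hUp) (hwT0 _), ← mul_assoc, ← chi_num_symmDiff (h0 S hSp) (h0 U hUp)]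
        congr 2
        rw [hUdef, symmDiff_symmDiff_cancel_left]
      · rw [if_neg ht, if_neg ht, one_mul, chi_mul (hnum0 S hSp) (hwT0 _)]
    · intro t
      have h6 : (0 ∈ t ∆ {0}) ↔ 0 ∉ t := by
        rw [Finset.mem_symmDiff, Finset.mem_singleton]
        tauto
      have h7 := hpar i (shiftIdx n t) (shiftIdx_le n t)
      rw [Nat.even_iff, Nat.even_iff] at h7
      show _ % 2 = _ % 2
      rw [shiftIdx_symmDiff]
      by_cases ht : 0 ∈ t
      · rw [if_pos ht, if_neg (fun h => h6.1 h ht)]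
        omega
      · rw [if_neg ht, if_pos (h6.2 ht)]
        omega

end Pool.Agent.H.MP_ac3185_nt.HT
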